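import Pool.Agent.Helper71.PY.Goals

/-!
# EXT: extension of linear forms from pure submodules (MP_293fae_al)
-/

set_option autoImplicit false

namespace Pool.Agent.Helper16.PY

open Pool.Agent.Helper71.PY

theorem ext (hD : G_DVR) : G_EXT := by
  intro R _ _ _ π hπ N _ _ _ _ P hP φ
  set I : Ideal R := Ideal.span {π} with hIdef
  have hI : I.IsPrime := (Ideal.span_singleton_prime hπ.ne_zero).2 hπ
  have hdvr : IsDiscreteValuationRing (Localization.AtPrime I) := hD R π hπ I rfl
  have htf : Module.IsTorsionFree R (N ⧸ P) := by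
    refine Module.IsTorsionFree.of_smul_eq_zero ?_
    intro r q hq
    by_cases hr : r = 0
    · exact Or.inl hr
    · right
      obtain ⟨n, rfl⟩ := P.mkQ_surjective q
      have h1 : P.mkQ (r • n) = 0 := by rw [map_smul]; exact hq
      have h2 : r • n ∈ P := (Submodule.Quotient.mk_eq_zero P).1 h1
      have h3 : n ∈ P := hP r n hr h2
      exact (Submodule.Quotient.mk_eq_zero P).2 h3
  let S : Submonoid R := I.primeCompl
  let O := Localization S
  have : IsDiscreteValuationRing O := hdvr
  have : Module.Finite O (LocalizedModule S (N ⧸ P)) :=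
    Module.Finite.of_isLocalizedModule S (LocalizedModule.mkLinearMap S (N ⧸ P))
  have : Module.Free O (LocalizedModule S (N ⧸ P)) := Module.free_of_finite_type_torsion_free'
  let m : LocalizedModule S N →ₗ[O] LocalizedModule S (N ⧸ P) :=
    IsLocalizedModule.mapExtendScalars S (LocalizedModule.mkLinearMap S N)
      (LocalizedModule.mkLinearMap S (N ⧸ P)) O P.mkQ
  have hmap : ∀ n : N, m (LocalizedModule.mkLinearMap S N n) =
      LocalizedModule.mkLinearMap S (N ⧸ P) (P.mkQ n) := by
    intro n
    exact IsLocalizedModule.map_apply S (LocalizedModule.mkLinearMap S N)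
      (LocalizedModule.mkLinearMap S (N ⧸ P)) P.mkQ n
  have hm : Function.Surjective m :=
    IsLocalizedModule.map_surjective S (LocalizedModule.mkLinearMap S N)
      (LocalizedModule.mkLinearMap S (N ⧸ P)) P.mkQ P.mkQ_surjective
  obtain ⟨σ, hσ⟩ := Module.projective_lifting_property m LinearMap.id hm
  let g : (N ⧸ P) →ₗ[R] LocalizedModule S N :=
    (σ.restrictScalars R) ∘ₗ LocalizedModule.mkLinearMap S (N ⧸ P)
  have : Module.FinitePresentation R (N ⧸ P) := Module.finitePresentation_of_finite R (N ⧸ P)
  obtain ⟨h, s, hs⟩ := Module.FinitePresentation.exists_lift_of_isLocalizedModule S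
    (LocalizedModule.mkLinearMap S N) g
  have key : ∀ q : N ⧸ P, P.mkQ (h q) = (s : R) • q := by
    intro q
    have h1 : LocalizedModule.mkLinearMap S N (h q) = (s : R) • g q := by
      exact LinearMap.congr_fun hs q
    have h2 : m ((s : R) • g q) = (s : R) • LocalizedModule.mkLinearMap S (N ⧸ P) q := by
      have h3 : m (g q) = LocalizedModule.mkLinearMap S (N ⧸ P) q := LinearMap.congr_fun hσ _
      have h4 : m ((s : R) • g q) = (s : R) • m (g q) := by
        exact LinearMap.map_smul_of_tower m (s : R) (g q)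
      rw [h4, h3]
    have h5 : LocalizedModule.mkLinearMap S (N ⧸ P) (P.mkQ (h q)) =
        LocalizedModule.mkLinearMap S (N ⧸ P) ((s : R) • q) := by
      rw [← hmap, h1, h2, map_smul]
    rw [IsLocalizedModule.eq_iff_exists S] at h5
    obtain ⟨c, hc⟩ := h5
    have hc0 : (c : R) ≠ 0 := by
      intro h0
      exact c.2 (by rw [h0]; exact I.zero_mem)
    exact smul_right_injective _ hc0 hc
  have hmem : ∀ n : N, (s : R) • n - h (P.mkQ n) ∈ P := by
    intro n
    have h0 : P.mkQ ((s : R) • n - h (P.mkQ n)) = 0 := by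
      rw [map_sub, map_smul, key]; simp
    exact (Submodule.Quotient.mk_eq_zero P).1 h0
  refine ⟨s, ?_, φ ∘ₗ LinearMap.codRestrict P ((s : R) • LinearMap.id - h ∘ₗ P.mkQ) ?_, ?_⟩
  · intro hd
    exact s.2 (Ideal.mem_span_singleton.2 hd)
  · intro n
    simpa using hmem n
  · intro p
    have : LinearMap.codRestrict P ((s : R) • LinearMap.id - h ∘ₗ P.mkQ) (by
        intro n
        simpa using hmem n) (p : N) = (s : R) • p := by
      apply Subtype.ext
      have h0 : P.mkQ (p : N) = 0 := by simp
      simp [LinearMap.codRestrict_apply, h0]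
    rw [LinearMap.comp_apply, this, map_smul, smul_eq_mul]

end Pool.Agent.Helper16.PY
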